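import Pool.Agent.H42.Hull

namespace Pool.Agent.Results.MP_00b317_lc.Full

open MeasureTheory

theorem result (n : ℕ) (hn : 1 ≤ n) (I : Set (Set (Fin n → ℝ)))
    (hI : I = {A | volume A = 0} ∨ I = {A | IsMeagre A}) :
    ¬ ∃ ψ : Set (Fin n → ℝ) → Set (Fin n → ℝ),
      (∀ A ∈ I, ψ A ∈ I ∧ MeasurableSet (ψ A) ∧ A ⊆ ψ A) ∧
      ∀ A ∈ I, ∀ x : Fin n → ℝ, ψ ((fun a => a + x) '' A) = (fun a => a + x) '' ψ A := by
  rintro ⟨ψ, h1, h2⟩
  obtain ⟨H, C, c1, c2, c3, c4⟩ := Pool.Agent.H42.Hull.exists_group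
  let i : Fin n := ⟨0, hn⟩
  have hsmall : ∀ {ι : Type} [Countable ι] (C : ι → Set ℝ), (∀ p, IsClosed (C p)) →
      (∀ p, volume (C p) = 0) → ∀ A : Set (Fin n → ℝ), (∀ v ∈ A, v i ∈ ⋃ p, C p) → A ∈ I := by
    intro ι _ C c1 c2 A hA
    have a1 : ∀ p, volume (Function.eval i ⁻¹' C p : Set (Fin n → ℝ)) = 0 := fun p =>
      Measure.pi_eval_preimage_null (fun _ => volume) (c2 p)
    have a2 : A ⊆ ⋃ p, (Function.eval i ⁻¹' C p : Set (Fin n → ℝ)) := fun v hv => by
      obtain ⟨p, hp⟩ := Set.mem_iUnion.1 (hA v hv)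
      exact Set.mem_iUnion.2 ⟨p, hp⟩
    rcases hI with rfl | rfl
    · exact measure_mono_null a2 (measure_iUnion_null a1)
    · refine IsMeagre.mono a2 (isMeagre_iUnion fun p => IsNowhereDense.isMeagre ?_)
      rw [((c1 p).preimage (continuous_apply i)).isNowhereDense_iff]
      exact Measure.interior_eq_empty_of_null (a1 p)
  let A : Set (Fin n → ℝ) := {v | v i ∈ H}
  have hA : A ∈ I := hsmall C c1 c2 A fun v hv => c3 hv
  obtain ⟨d1, d2, d3⟩ := h1 A hA
  have hinv : ∀ d ∈ ψ A, ∀ x ∈ A, d + x ∈ ψ A := by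
    intro d hd x hx
    have : (fun a => a + x) '' A = A := by
      ext v
      constructor
      · rintro ⟨w, hw, rfl⟩; exact H.add_mem hw hx
      · intro hv; exact ⟨v - x, H.sub_mem hv hx, sub_add_cancel v x⟩
    have h3 := h2 A hA x
    rw [this] at h3
    rw [h3]
    exact ⟨d, hd, rfl⟩
  have hc := c4 ((fun t (_ : Fin n) => t) ⁻¹' ψ A) ((measurable_pi_lambda _ fun _ => measurable_id) d2)
    (fun t ht => d3 ht) (fun d hd h hh => hinv _ hd (fun _ => h) hh)
  have := hc.to_subtype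
  have hcompl : (ψ A)ᶜ ∈ I := by
    refine hsmall (ι := ↥((fun t (_ : Fin n) => t) ⁻¹' ψ A)ᶜ) (fun t => {t.1})
      (fun _ => isClosed_singleton) (fun _ => measure_singleton _) _ fun v hv => ?_
    refine Set.mem_iUnion.2 ⟨⟨v i, fun h => hv ?_⟩, rfl⟩
    have := hinv _ h (v - fun _ => v i) (show v i - v i ∈ H by rw [sub_self]; exact H.zero_mem)
    simpa using this
  rcases hI with rfl | rfl
  · have : volume (ψ A ∪ (ψ A)ᶜ) = 0 := measure_union_null d1 hcompl
    rw [Set.union_compl_self] at this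
    exact isOpen_univ.measure_ne_zero volume Set.univ_nonempty this
  · have : IsMeagre (ψ A ∪ (ψ A)ᶜ) := IsMeagre.union d1 hcompl
    rw [Set.union_compl_self] at this
    exact not_isMeagre_of_isOpen isOpen_univ Set.univ_nonempty this

end Pool.Agent.Results.MP_00b317_lc.Full
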